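import Pool.Agent.TH193.FReg.NonLift

/-!
# Regular `(n - 1)`-forms on globally F-regular varieties do not lift to log resolutions

For every prime `p`, every algebraically closed field `k` of characteristic `p` and every `n ≥ 2`
there is a normal affine variety `X = Spec R` of dimension `n` over `k` which is globally
(= strongly) F-regular and has a log resolution, and a regular `(n - 1)`-form `ω` on its smooth
locus whose pull-back is not regular on any proper birational modification of `X`, in particular
not on any log resolution of `(X, 0)`.
-/

universe u

open MvPolynomial Pool.Agent.TH193.FReg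

namespace Pool.Agent.Results.MP_0afa72_ag.FormsDoNotLift

theorem result (p : ℕ) [Fact p.Prime] (k : Type u) [Field k] [IsAlgClosed k] [CharP k p] (n : ℕ)
    (hn : 2 ≤ n) :
    ∃ (K : Type u) (_ : Field K) (_ : Algebra k K) (R : Subalgebra k K),
      -- `X = Spec R` is a normal affine variety over `k` of dimension `n`
      IsAffineVariety R ∧ Algebra.trdeg k K = n ∧ IsIntegrallyClosed R ∧
      -- `(X, 0)` is globally F-regular
      StronglyFRegular p R ∧
      -- `X` has a log resolution
      (∃ Y : Variety k K, Y.IsLogResolution R n) ∧
      -- there is a regular `(n - 1)`-form on the smooth locus of `X`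
      ∃ ω : Form k K (n - 1), RegularOnSmoothLocus ω R ∧
        -- whose pull-back is not regular on any proper birational modification (hence not on
        -- any log resolution) of `X`
        ∀ Y : Variety k K, Y.ProperOver R → ¬ Y.RegularOn ω := by
  obtain ⟨N, rfl⟩ := Nat.exists_eq_add_of_le' hn
  have hp : 1 ≤ p := (Fact.out : p.Prime).one_le
  refine ⟨FractionRing (MvPolynomial (Fin (N + 2)) k), inferInstance, inferInstance,
    RR k N (FractionRing (MvPolynomial (Fin (N + 2)) k)) p,
    isAffineVariety_RR k N _ p hp, trdeg_eq k N _,
    isIntegrallyClosed_of_stronglyFRegular p (stronglyFRegular_RR k N _ p),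
    stronglyFRegular_RR k N _ p, ⟨YY k N _ p hp, isLogResolution_YY k N _ p hp⟩,
    om k N _, regularOnSmoothLocus_om k N _ p, fun Y hY => ?_⟩
  exact not_regularOn k N _ p Y hY

end Pool.Agent.Results.MP_0afa72_ag.FormsDoNotLift
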